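import Pool.Agent.Q46.UP.Core

/-! # A universal partial cycle of word length 12

There is a non-trivial binary universal partial cycle of word length `12` (and length `512`).  So the
word lengths of universal partial cycles are not only `4` and `8`. -/

namespace Pool.Agent.Results.MP_0aa0f2_co.WordLengthTwelve

/-- A cyclic partial word of length `N` over the alphabet `{0, …, a-1}` is a function on the integers
modulo `N`; the value `none` is the wildcard.  Its window of length `n` at position `i` covers the
word `w` if each of its characters is the wildcard or the letter of `w` at the same place. -/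
def Covers {a n N : ℕ} (u : ZMod N → Option (Fin a)) (i : ZMod N) (w : Fin n → Fin a) : Prop :=
  ∀ j : Fin n, u (i + (j : ℕ)) = none ∨ u (i + (j : ℕ)) = some (w j)

/-- Every word of length `n` is covered by exactly one window. -/
def IsUpcycle {a N : ℕ} (n : ℕ) (u : ZMod N → Option (Fin a)) : Prop :=
  ∀ w : Fin n → Fin a, ∃! i : ZMod N, Covers u i w

/-- There is at least one wildcard and at least one letter. -/
def IsNontrivial {a N : ℕ} (u : ZMod N → Option (Fin a)) : Prop :=
  (∃ i, u i = none) ∧ ∃ i, u i ≠ none

open Pool.Agent.Q46.UP in
theorem result : ∃ u : ZMod 512 → Option (Fin 2), IsUpcycle 12 u ∧ IsNontrivial u := by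
  have key : ∀ (i : ZMod 512) (j : ℕ), uu ((i + (j : ZMod 512)).val) = uu (i.val + j) := by
    intro i j
    rw [ZMod.val_add, ZMod.val_natCast]
    have h1 : (i.val + j % 512) % 512 = (i.val + j) % 512 := by omega
    rw [h1]
    unfold uu
    have h2 : (i.val + j) % 512 % 4 = (i.val + j) % 4 := by omega
    rw [h2, Nat.mod_mod]
  refine ⟨fun i => uu i.val, ?_, ⟨0, ?_⟩, ⟨1, ?_⟩⟩
  · intro w
    obtain ⟨i, hi, hu⟩ := unique_cover w
    refine ⟨(i.val : ZMod 512), ?_, ?_⟩
    · intro j
      have h1 := hi j
      have h2 := key (i.val : ZMod 512) j
      rw [ZMod.val_natCast, Nat.mod_eq_of_lt i.isLt] at h2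
      simp only [h2]
      exact h1
    · intro b hb
      have h3 : (⟨b.val, ZMod.val_lt b⟩ : Fin 512) = i := by
        apply hu
        intro j
        have h1 := hb j
        simp only [key] at h1
        exact h1
      have h4 : b.val = i.val := by rw [← h3]
      rw [← h4, ZMod.natCast_val, ZMod.cast_id', id]
  · decide +kernel
  · decide +kernel

end Pool.Agent.Results.MP_0aa0f2_co.WordLengthTwelve
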